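import Pool.Agent.helper88.GR.Spec

/-!
# Project gr: MOD, the local form at the smallest cell
-/

set_option autoImplicit false

open Complex Metric Set Filter Topology MeasureTheory
open MPS (om)
open PPS (pre TT fd)
open XPS (Df er dens tau)

noncomputable section

namespace GR

theorem MOD (hNAT : NAT_stmt) (hCEL : CEL_stmt) (hSEP : SEP_stmt) : MOD_stmt := by
  intro C n c p q G j₀ hC hR hT hX hj₀ hmin
  obtain ⟨hcel, -, hlam⟩ := hCEL C n c p q G hC hR hT hX
  obtain ⟨-, -, -, -, -, -, -, -, -, -, hN⟩ := hNAT n c hR.hn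
  obtain ⟨hR0, -, -, -, hA, -, hxc⟩ := hN p q hR
  have hj0 := Finset.mem_Icc.mp hj₀
  have hC1 : 1 ≤ C := hC.1
  have hC0 : 0 < C := by linarith
  have hA0 : A n c j₀ ≠ 0 := hA j₀ hj0.1 (by omega)
  have hAp : A n c p ≠ 0 := hA p (by omega) (by omega)
  have hA0' : 0 < ‖A n c j₀‖ := norm_pos_iff.mpr hA0
  have hAp' : 0 < ‖A n c p‖ := norm_pos_iff.mpr hAp
  have hsg : 0 < sg C n c p q := by
    unfold sg
    positivity
  have hs : 0 < ss C n c p q j₀ := by
    unfold ss
    positivity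
  have hs' : (ss C n c p q j₀ : ℂ) ≠ 0 := by
    exact_mod_cast hs.ne'
  have hl : ‖lam n c p q‖ ≤ 1 / 8 := by
    refine hlam.trans ?_
    rw [div_le_iff₀ (by linarith)]
    linarith
  have hsep : ∀ i ∈ Finset.Icc 1 p, ∀ j ∈ Finset.Icc 1 p, i ≠ j →
      2 ≤ ‖Z n c i - Z n c j‖ / ss C n c p q j₀ := by
    intro i hi j hj hij
    rw [le_div_iff₀ hs]
    have h1 := hcel i hi j hj hij
    have h2 := hmin i hi
    have h3 := hmin j hj
    unfold ss
    have h4 : sg C n c p q * (‖A n c j₀‖ + ‖A n c j₀‖) ≤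
        sg C n c p q * (‖A n c i‖ + ‖A n c j‖) :=
      mul_le_mul_of_nonneg_left (by linarith) hsg.le
    linarith
  have hnorm : ∀ i : ℕ, ∀ j : ℕ, ‖(Z n c i - Z n c j₀) / (ss C n c p q j₀ : ℂ) -
      (Z n c j - Z n c j₀) / (ss C n c p q j₀ : ℂ)‖ = ‖Z n c i - Z n c j‖ / ss C n c p q j₀ := by
    intro i j
    have e : (Z n c i - Z n c j₀) / (ss C n c p q j₀ : ℂ) -
      (Z n c j - Z n c j₀) / (ss C n c p q j₀ : ℂ) =
        (Z n c i - Z n c j) / (ss C n c p q j₀ : ℂ) := by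
      rw [← sub_div]
      congr 1
      ring
    rw [e, norm_div, Complex.norm_real, Real.norm_of_nonneg hs.le]
  obtain ⟨a, b, hab⟩ := hSEP ℕ ((Finset.Icc 1 p).erase j₀)
    (fun j => xc n c p q j * A n c j₀ / A n c j)
    (fun j => (Z n c j - Z n c j₀) / (ss C n c p q j₀ : ℂ)) (by
      intro i hi
      have hi' := Finset.mem_of_mem_erase hi
      have h1 := hxc i
      have h2 : ‖xc n c p q i‖ ≤ 2 := by
        have h3 : ‖xc n c p q i‖ ≤ ‖xc n c p q i - 1‖ + ‖(1 : ℂ)‖ := by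
          have h4 := norm_add_le (xc n c p q i - 1) 1
          rwa [sub_add_cancel] at h4
        rw [norm_one] at h3
        linarith
      have h5 := hmin i hi'
      have h6 : 0 < ‖A n c i‖ := lt_of_lt_of_le hA0' h5
      show ‖xc n c p q i * A n c j₀ / A n c i‖ ≤ 2
      rw [norm_div, norm_mul, div_le_iff₀ h6]
      exact mul_le_mul h2 h5 (norm_nonneg _) (by norm_num)) (by
      intro i hi
      have hi' := Finset.mem_of_mem_erase hi
      have hne := Finset.ne_of_mem_erase hi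
      have h1 := hsep i hi' j₀ hj₀ hne
      show 2 ≤ ‖(Z n c i - Z n c j₀) / (ss C n c p q j₀ : ℂ)‖
      rw [norm_div, Complex.norm_real, Real.norm_of_nonneg hs.le]
      exact h1) (by
      intro i hi j hj hij
      have h1 := hsep i (Finset.mem_of_mem_erase hi) j (Finset.mem_of_mem_erase hj) hij
      show 2 ≤ ‖(Z n c i - Z n c j₀) / (ss C n c p q j₀ : ℂ) -
        (Z n c j - Z n c j₀) / (ss C n c p q j₀ : ℂ)‖
      rw [hnorm]
      exact h1)
  refine ⟨a, b, fun x hx0 hx => ?_⟩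
  have hx' : x ≠ 0 := norm_pos_iff.mp hx0
  have h1 := hab x hx
  have h2 : Bh C n c p q j₀ x - xc n c p q j₀ / x =
      ∑ j ∈ (Finset.Icc 1 p).erase j₀, xc n c p q j * A n c j₀ / A n c j /
        (x - (Z n c j - Z n c j₀) / (ss C n c p q j₀ : ℂ)) := by
    unfold Bh B
    rw [← Finset.add_sum_erase _ _ hj₀, mul_add, Finset.mul_sum]
    have e1 : (ss C n c p q j₀ : ℂ) * A n c j₀ * (xc n c p q j₀ / A n c j₀ /
        (Z n c j₀ + (ss C n c p q j₀ : ℂ) * x - Z n c j₀)) = xc n c p q j₀ / x := by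
      have e2 : Z n c j₀ + (ss C n c p q j₀ : ℂ) * x - Z n c j₀ = (ss C n c p q j₀ : ℂ) * x := by
        ring
      rw [e2]
      field_simp
    rw [e1, add_sub_cancel_left]
    refine Finset.sum_congr rfl fun j hj => ?_
    have e3 : x - (Z n c j - Z n c j₀) / (ss C n c p q j₀ : ℂ) =
        (Z n c j₀ + (ss C n c p q j₀ : ℂ) * x - Z n c j) / (ss C n c p q j₀ : ℂ) := by
      field_simp
      ring
    rw [e3, div_div_eq_mul_div]
    ring
  rw [h2]
  exact h1

end GR
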